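import Pool.Agent.Helper72.LS.ExtDef

/-! Project LS: piece P10. -/

set_option autoImplicit false

namespace Pool.Agent.Helper28.LS

open Finset
open scoped Classical
open Pool.Agent.Helper72.LS

theorem card_NG {V : Type} [Fintype V] (G : SimpleGraph V) (v : V) :
    ((NG G v).card : ℤ) = dg G v := by
  unfold NG dg ad
  rw [Finset.card_filter]
  push_cast
  rfl

/-- adding a twin -/
theorem ext_clone {k δ h P : ℤ} {V : Type} [Fintype V] {G : SimpleGraph V} (E : Ext k δ h P G)
    (v : V) {j : ℤ} (hv : Valid k j (psG G k h - Xv G k v)) :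
    phi k j h (Fintype.card V + 1) (em G + dg G v) (tm G + eI G (NG G v)) ≤ P := by
  obtain ⟨Γ, h1, h2⟩ := op_add_vertex G (NG G v)
  rw [card_NG] at h1
  have hc : (Fintype.card (Option V) : ℤ) = Fintype.card V + 1 := by
    rw [Fintype.card_option]; push_cast; rfl
  have hp : psG Γ k h = psG G k h - Xv G k v := by
    unfold psG Xv
    rw [hc, h1]
    exact pos_clone k h _ _ _
  have h3 := E.all (Option V) Γ h j (by rw [hp]; exact hv)
  unfold phG at h3
  rw [hc, h1, h2] at h3
  exact h3

theorem clone_eq {k δ h : ℤ} {V : Type} [Fintype V] {G : SimpleGraph V} (v : V) :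
    phi k δ h (Fintype.card V + 1) (em G + dg G v) (tm G + eI G (NG G v))
      = phG G k δ h - (Dj k δ - psG G k h) - ev G k δ h v :=
  phi_clone k δ h _ _ _ _ _

theorem ext_clone1 {k δ h P : ℤ} {V : Type} [Fintype V] {G : SimpleGraph V} (E : Ext k δ h P G)
    (v : V) (h0 : 0 ≤ k - δ + Xv G k v) (h1 : Xv G k v + (Dj k δ - psG G k h) ≤ 0) :
    0 ≤ ev G k δ h v := by
  have hb := E.hr
  have hb' := E.hr'
  have hval := E.val
  have hδ := E.hδ
  have hs := Dj_succ k δ
  by_cases hc : δ < k - 1 ∧ Dj k (δ + 1) < psG G k h - Xv G k v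
  · obtain ⟨hc1, hc2⟩ := hc
    have hs2 := Dj_succ k (δ + 1)
    have h3 := ext_clone E v (j := δ + 1) ⟨by linarith, le_of_lt hc2, fun _ => by linarith⟩
    rw [phi_succ] at h3
    have h4 := clone_eq (k := k) (δ := δ) (h := h) (G := G) v
    have h5 : pos k h (Fintype.card V + 1) (em G + dg G v) = psG G k h - Xv G k v := by
      unfold psG Xv
      exact pos_clone k h _ _ _
    rw [h4, h5, hval] at h3
    linarith
  · have hV : Valid k δ (psG G k h - Xv G k v) := by
      refine ⟨hδ, by linarith, fun h' => ?_⟩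
      by_contra hcon
      exact hc ⟨h', by linarith⟩
    have h3 := ext_clone E v hV
    rw [clone_eq, hval] at h3
    linarith

theorem ext_H3 {k δ h P : ℤ} {V : Type} [Fintype V] {G : SimpleGraph V} (E : Ext k δ h P G)
    (v : V) : 1 ≤ k - δ + Xv G k v := by
  have hb := E.hr
  have hb' := E.hr'
  have hval := E.val
  have hδ := E.hδ
  have hk := E.hk
  have hkn : ((k.toNat : ℕ) : ℤ) = k := Int.toNat_of_nonneg (by linarith)
  obtain ⟨W, _, Γ, hW, hm, ht⟩ := op_join G v k.toNat (by omega)
  rw [hkn] at hW hm ht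
  have hX : Xv G k v = Fintype.card V - k - dg G v := rfl
  have hpos : psG Γ k (h + 1) = psG G k h - 1 := by
    have h1 := pos_join k h (Fintype.card V) (em G)
    unfold psG
    rw [hW, hm, ← h1]
    unfold pos
    ring
  have hphi : ∀ j, phG Γ k j (h + 1) = phG G k j h - (Fintype.card V - j - 1 - dg G v) := by
    intro j
    have h1 := phi_join k j h (Fintype.card V) (em G) (tm G)
    unfold phG
    rw [hW, hm, ht, ← h1]
    unfold phi
    ring
  by_cases hc : Dj k δ < psG G k h
  · have h3 := E.all W Γ (h + 1) δ (by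
      rw [hpos]
      exact ⟨hδ, by linarith, fun _ => by linarith⟩)
    rw [hphi, hval] at h3
    linarith
  · have hb0 : psG G k h = Dj k δ := by linarith
    have hs := Dj_succ k (δ - 1)
    rw [show δ - 1 + 1 = δ by ring] at hs
    have h3 := E.all W Γ (h + 1) (δ - 1) (by
      rw [hpos]
      exact ⟨by linarith, by linarith, fun _ => by
        rw [show δ - 1 + 1 = δ by ring]; linarith⟩)
    have h4 : phG Γ k (δ - 1) (h + 1) = phG Γ k δ (h + 1) + (psG Γ k (h + 1) - Dj k δ) :=
      phi_pred k δ (h + 1) _ _ _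
    rw [h4, hphi, hval, hpos] at h3
    by_contra hcon
    have hX0 : k - δ + Xv G k v = 0 := by linarith
    have h5 := ext_clone1 E v (by linarith) (by linarith)
    obtain ⟨Δ, d1, d2⟩ := op_del_vertex G v
    have hc1 : (Fintype.card {x : V // x ≠ v} : ℤ) = Fintype.card V - 1 := by
      have h7 : Fintype.card {x : V // x ≠ v} = Fintype.card V - 1 := by
        rw [Fintype.card_subtype_compl, Fintype.card_subtype_eq]
      have h8 : 0 < Fintype.card V := Fintype.card_pos_iff.2 ⟨v⟩
      rw [h7]
      push_cast [Nat.cast_sub h8]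
      rfl
    have hpd : psG Δ k h = psG G k h + Xv G k v - 1 := by
      unfold psG Xv
      rw [hc1, d1]
      exact pos_del k h _ _ _
    have h6 := E.small {x : V // x ≠ v} Δ h (δ - 1) (by
      have : (Fintype.card {x : V // x ≠ v} : ℤ) < Fintype.card V := by rw [hc1]; linarith
      exact_mod_cast this) (by
      rw [hpd]
      exact ⟨by linarith, by linarith, fun _ => by
        rw [show δ - 1 + 1 = δ by ring]; linarith⟩)
    have h9 : phG Δ k (δ - 1) h = phG G k δ h - Yv G k δ h v := by
      unfold phG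
      rw [hc1, d1, d2]
      exact phi_del k δ h _ _ _ _ _
    rw [h9, hval] at h6
    have h10 : ev G k δ h v = (Fintype.card V - δ - dg G v) - Yv G k δ h v := rfl
    linarith

end Pool.Agent.Helper28.LS
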